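import Pool.Agent.H25.LF.Targets

/-!
# The Brun-Titchmarsh inequality with the constant two (MP_04ff0f_nt, row BTS)
-/

set_option autoImplicit false

open Finset Real ArithmeticFunction

namespace Pool.Agent.H19.LF

open Pool.Agent.H25.LF

theorem bts_log (δ η : ℝ) (hδ : 0 < δ) (hη : 0 < η) :
    ∃ Y : ℝ, 2 ≤ Y ∧ ∀ t : ℝ, Y ≤ t → Real.log t ≤ δ / 4 * t ^ (2 * η) := by
  have h := (isLittleO_log_rpow_atTop (show (0:ℝ) < 2 * η by linarith)).bound
    (show (0:ℝ) < δ / 4 by linarith)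
  obtain ⟨Y, hY⟩ := Filter.eventually_atTop.1 h
  refine ⟨max Y 2, le_max_right _ _, fun t ht => ?_⟩
  have h1 := hY t ((le_max_left _ _).trans ht)
  have h2 : (2:ℝ) ≤ t := (le_max_right _ _).trans ht
  rw [Real.norm_of_nonneg (Real.log_nonneg (by linarith)),
    Real.norm_of_nonneg (Real.rpow_nonneg (by linarith) _)] at h1
  exact h1

theorem pf_BTS (hBTZ : T_BTZ) : T_BTS := by
  intro δ hδ
  set η : ℝ := min δ 1 / 16 with hη
  have hm0 : 0 < min δ 1 := lt_min hδ one_pos
  have hη0 : 0 < η := by positivity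
  have hη1 : η ≤ 1 / 16 := by
    have := min_le_right δ 1
    rw [hη]
    linarith
  have hηδ : 8 * η ≤ δ / 2 := by
    have := min_le_left δ 1
    rw [hη]
    linarith
  obtain ⟨Y, hY2, hY⟩ := bts_log δ η hδ hη0
  refine ⟨Y, hY2, ?_⟩
  intro x d a hd hx
  have hdpos : (0:ℝ) < d := by exact_mod_cast hd
  have hd1 : (1:ℝ) ≤ d := by exact_mod_cast hd
  set t : ℝ := x / d with ht
  have htY : Y ≤ t := by
    rw [ht, le_div_iff₀ hdpos]
    exact hx
  have ht2 : (2:ℝ) ≤ t := hY2.trans htY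
  have ht0 : (0:ℝ) < t := by linarith
  have hx0 : 0 < x := by
    have : x = t * d := by rw [ht]; field_simp
    rw [this]
    positivity
  have hlogt : 0 < Real.log t := Real.log_pos (by linarith)
  set u : ℝ := t ^ (1 / 2 - η) with hu
  have hu1 : 1 ≤ u := Real.one_le_rpow (by linarith) (by linarith)
  have hu0 : 0 < u := by linarith
  set z : ℕ := ⌊u⌋₊ with hz
  have hz1 : 1 ≤ z := (Nat.one_le_floor_iff u).mpr hu1
  have hz1' : (1:ℝ) ≤ z := by exact_mod_cast hz1
  have hzu : (z:ℝ) ≤ u := Nat.floor_le hu0.le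
  have huz : u < z + 1 := Nat.lt_floor_add_one u
  have hphi : (0:ℝ) < d.totient := by exact_mod_cast Nat.totient_pos.mpr hd
  have hphid : (d.totient : ℝ) ≤ d := by exact_mod_cast Nat.totient_le d
  have h1 := hBTZ ⌊x⌋₊ d a z hd hz1
  have hcount : ((PR x).filter (fun p => p % d = a % d)) =
      (Icc 1 ⌊x⌋₊).filter (fun p => p.Prime ∧ p % d = a % d) := by
    unfold PR
    rw [Finset.filter_filter]
  rw [hcount]
  refine h1.trans ?_
  -- the logarithm
  have hlu : Real.log u = (1 / 2 - η) * Real.log t := by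
    rw [hu, Real.log_rpow ht0]
  have hlz : (1 / 2 - η) * Real.log t ≤ Real.log (z + 1) := by
    rw [← hlu]
    exact Real.log_le_log hu0 huz.le
  have hc0 : 0 < 1 / 2 - η := by linarith
  have hfl : ((⌊x⌋₊ : ℕ) : ℝ) ≤ x := Nat.floor_le hx0.le
  set W : ℝ := x / (d.totient * Real.log t) with hW
  have hW0 : 0 < W := by positivity
  have e1 : (⌊x⌋₊ : ℝ) / (d.totient * Real.log (z + 1)) ≤ (2 + δ / 2) * W := by
    have a1 : (⌊x⌋₊ : ℝ) / (d.totient * Real.log (z + 1)) ≤
        x / (d.totient * ((1 / 2 - η) * Real.log t)) := by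
      apply div_le_div₀ hx0.le hfl (by positivity)
      exact mul_le_mul_of_nonneg_left hlz hphi.le
    have a2 : x / (d.totient * ((1 / 2 - η) * Real.log t)) = (1 / 2 - η)⁻¹ * W := by
      rw [hW]
      field_simp
    have a3 : (1 / 2 - η)⁻¹ ≤ 2 + δ / 2 := by
      rw [inv_le_iff_one_le_mul₀ hc0]
      have : (1 / 2 - η) * (2 + 8 * η) ≤ (1 / 2 - η) * (2 + δ / 2) :=
        mul_le_mul_of_nonneg_left (by linarith) hc0.le
      nlinarith
    rw [a2] at a1
    exact a1.trans (mul_le_mul_of_nonneg_right a3 hW0.le)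
  have e2 : (z : ℝ) + (z : ℝ) ^ 2 ≤ δ / 2 * W := by
    have a1 : (z : ℝ) ^ 2 ≤ t ^ (1 - 2 * η) := by
      calc (z : ℝ) ^ 2 ≤ u ^ 2 := by gcongr
        _ = t ^ (1 - 2 * η) := by
            rw [hu, ← Real.rpow_natCast, ← Real.rpow_mul ht0.le]
            congr 1
            push_cast
            ring
    have a2 : (z : ℝ) ≤ (z : ℝ) ^ 2 := by nlinarith
    have a3 : t ^ (1 - 2 * η) * t ^ (2 * η) = t := by
      rw [← Real.rpow_add ht0]
      simp
    have a4 := hY t htY
    have a5 : 0 < t ^ (1 - 2 * η) := Real.rpow_pos_of_pos ht0 _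
    have a6 : t ^ (1 - 2 * η) * Real.log t ≤ δ / 4 * t := by
      calc t ^ (1 - 2 * η) * Real.log t ≤ t ^ (1 - 2 * η) * (δ / 4 * t ^ (2 * η)) :=
            mul_le_mul_of_nonneg_left a4 a5.le
        _ = δ / 4 * (t ^ (1 - 2 * η) * t ^ (2 * η)) := by ring
        _ = δ / 4 * t := by rw [a3]
    have a7 : t ^ (1 - 2 * η) ≤ δ / 4 * (t / Real.log t) := by
      have b1 : δ / 4 * (t / Real.log t) = (δ / 4 * t) / Real.log t := by ring
      rw [b1, le_div_iff₀ hlogt]
      exact a6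
    have a8 : t / Real.log t ≤ W := by
      rw [ht, hW, div_div]
      apply div_le_div_of_nonneg_left hx0.le (by positivity)
      exact mul_le_mul_of_nonneg_right hphid hlogt.le
    have a9 : δ / 4 * (t / Real.log t) ≤ δ / 4 * W := mul_le_mul_of_nonneg_left a8 (by linarith)
    linarith
  have e3 : (2 + δ) * x / (d.totient * Real.log (x / d)) = (2 + δ / 2) * W + δ / 2 * W := by
    rw [hW, ht]
    ring
  rw [e3]
  linarith

end Pool.Agent.H19.LF
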