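import Pool.Agent.H25.LF.Targets
import Pool.Agent.H48.PF.BT

/-!
# The Brun-Titchmarsh inequality with a parameter (MP_04ff0f_nt, row BTZ)
-/

set_option autoImplicit false

open Finset Real ArithmeticFunction

namespace Pool.Agent.H19.LF

open Pool.Agent.H25.LF
open Pool.Agent.H48.PF (sb sb_rem sb_sifted FF_le_of_le)
open Pool.Agent.H75.PS BoundingSieve

theorem btz_g (x d a R p : ℕ) (hp : p ∈ SP d R) :
    1 / ((p : ℝ) - 1) ≤ (sb x d a R).selbergTerms p := by
  have hpp := (mem_SP.mp hp).1.2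
  have h3 : 2 ≤ p := hpp.two_le
  have h4 : (2:ℝ) ≤ p := by exact_mod_cast h3
  rw [selbergTerms_apply, hpp.primeFactors, Finset.prod_singleton]
  have h5 : (sb x d a R).nu p = (p:ℝ)⁻¹ := rfl
  rw [h5, ← mul_inv, one_div]
  refine le_of_eq (congrArg (fun w : ℝ => w⁻¹) ?_)
  have h6 : (p : ℝ) ≠ 0 := by positivity
  field_simp

theorem btz_SS (x d a z : ℕ) :
    FF (fun p => (sb x d a z).selbergTerms p) (SP d z) z ≤ SS (sb x d a z) z := by
  classical
  set s := sb x d a z with hs
  have hprod : s.prodPrimes = ∏ p ∈ SP d z, p := rfl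
  unfold FF SS
  have hinj : Set.InjOn (fun A : Finset ℕ => ∏ p ∈ A, p)
      (((SP d z).powerset.filter (fun A => ∏ p ∈ A, p ≤ z) : Finset (Finset ℕ)) :
        Set (Finset ℕ)) := by
    intro A hA B hB hAB
    have hA' := Finset.mem_filter.mp (Finset.mem_coe.mp hA)
    have hB' := Finset.mem_filter.mp (Finset.mem_coe.mp hB)
    rw [Finset.mem_powerset] at hA' hB'
    have h1 : (∏ p ∈ A, p).primeFactors = A :=
      Nat.primeFactors_prod (fun p hp => (mem_SP.mp (hA'.1 hp)).1.2)
    have h2 : (∏ p ∈ B, p).primeFactors = B :=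
      Nat.primeFactors_prod (fun p hp => (mem_SP.mp (hB'.1 hp)).1.2)
    simp only at hAB
    rw [← h1, ← h2, hAB]
  have h3 : ∀ A ∈ (SP d z).powerset.filter (fun A => ∏ p ∈ A, p ≤ z),
      ∏ p ∈ A, s.selbergTerms p = s.selbergTerms (∏ p ∈ A, p) := by
    intro A hA
    rw [Finset.mem_filter, Finset.mem_powerset] at hA
    symm
    apply selbergTerms_isMultiplicative.map_prod_of_subset_primeFactors s.prodPrimes
    rw [hprod, primeFactors_SP]
    exact hA.1
  rw [Finset.sum_congr rfl h3]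
  rw [← Finset.sum_image (f := fun l => s.selbergTerms l) hinj]
  apply Finset.sum_le_sum_of_subset_of_nonneg
  · intro l hl
    rw [Finset.mem_image] at hl
    obtain ⟨A, hA, rfl⟩ := hl
    rw [Finset.mem_filter, Finset.mem_powerset] at hA
    rw [Finset.mem_filter, Nat.mem_divisors]
    refine ⟨⟨?_, prodPrimes_ne_zero⟩, hA.2⟩
    rw [hprod]
    exact Finset.prod_dvd_prod_of_subset _ _ _ hA.1
  · intro l hl _
    rw [Finset.mem_filter, Nat.mem_divisors] at hl
    exact (selbergTerms_pos hl.1.1).le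

theorem btz_lower (hSDF : T_SDF) (x d a z : ℕ) (hd : 0 < d) :
    Real.log (z + 1) ≤ ((d : ℝ) / d.totient) * SS (sb x d a z) z := by
  have h1 := hSDF d z hd
  have h2 : FF (fun p => 1 / ((p : ℝ) - 1)) (SP d z) z ≤
      FF (fun p => (sb x d a z).selbergTerms p) (SP d z) z := by
    refine FF_le_of_le _ _ _ (fun p hp => ?_) (fun p hp => btz_g x d a z p hp) z
    have hpp := (mem_SP.mp hp).1.2
    have h4 : (1:ℝ) < p := by exact_mod_cast hpp.one_lt
    have h5 : 0 < (p : ℝ) - 1 := by linarith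
    positivity
  have h3 := h2.trans (btz_SS x d a z)
  have hdt : (0:ℝ) ≤ (d : ℝ) / d.totient := by positivity
  exact h1.trans (mul_le_mul_of_nonneg_left h3 hdt)

theorem pf_BTZ (hSEL : T_SEL) (hSDF : T_SDF) : T_BTZ := by
  intro x d a z hd hz
  have h1 := sb_sifted x d a z
  have h2 := hSEL (sb x d a z) z hz
  have h3 := btz_lower hSDF x d a z hd
  set s := sb x d a z with hs
  have hS := SS_pos s z hz
  have hzpos : (0:ℝ) < z := by exact_mod_cast hz
  have hdpos : (0:ℝ) < d := by exact_mod_cast hd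
  have hlog : 0 < Real.log (z + 1) := Real.log_pos (by linarith)
  have ht : (0:ℝ) < d.totient := by exact_mod_cast Nat.totient_pos.mpr hd
  have hmass : s.totalMass = (x:ℝ) / d := rfl
  have h4 : s.totalMass * (SS s z)⁻¹ ≤ x / (d.totient * Real.log (z + 1)) := by
    rw [hmass, ← div_eq_mul_inv, div_div]
    have h5 : (d.totient : ℝ) * Real.log (z + 1) ≤ d * SS s z := by
      calc (d.totient : ℝ) * Real.log (z + 1)
          ≤ d.totient * (((d : ℝ) / d.totient) * SS s z) := by gcongr
        _ = d * SS s z := by field_simp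
    have hx : (0:ℝ) ≤ x := by positivity
    exact div_le_div_of_nonneg_left hx (by positivity) h5
  have hcard : ((s.prodPrimes.divisors.filter (fun d1 => d1 ≤ z)).card : ℝ) ≤ z := by
    have h6 : (s.prodPrimes.divisors.filter (fun d1 => d1 ≤ z)).card ≤ (Finset.Icc 1 z).card := by
      apply Finset.card_le_card
      intro l hl
      rw [Finset.mem_filter, Nat.mem_divisors] at hl
      rw [Finset.mem_Icc]
      exact ⟨Nat.pos_of_dvd_of_pos hl.1.1 (Nat.pos_of_ne_zero hl.1.2), hl.2⟩
    rw [Nat.card_Icc, Nat.add_sub_cancel] at h6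
    exact_mod_cast h6
  have h5 : ∑ d1 ∈ s.prodPrimes.divisors with d1 ≤ z, ∑ d2 ∈ s.prodPrimes.divisors with d2 ≤ z,
        |s.rem (d1.lcm d2)| ≤ (z : ℝ) ^ 2 := by
    calc _ ≤ ∑ d1 ∈ s.prodPrimes.divisors with d1 ≤ z,
          ∑ d2 ∈ s.prodPrimes.divisors with d2 ≤ z, (1 : ℝ) := by
          apply Finset.sum_le_sum
          intro d1 hd1
          apply Finset.sum_le_sum
          intro d2 hd2
          rw [Finset.mem_filter, Nat.mem_divisors] at hd1 hd2
          exact sb_rem x d a z (d1.lcm d2) hd (Nat.lcm_dvd hd1.1.1 hd2.1.1)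
      _ = ((s.prodPrimes.divisors.filter (fun d1 => d1 ≤ z)).card : ℝ) ^ 2 := by
          simp only [Finset.sum_const, nsmul_eq_mul, mul_one]
          ring
      _ ≤ (z : ℝ) ^ 2 := by
          apply pow_le_pow_left₀ (by positivity) hcard
  linarith

end Pool.Agent.H19.LF
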