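import Pool.Agent.H28.LF.T3

set_option autoImplicit false

open MeasureTheory ProbabilityTheory Filter Topology Finset
open scoped Nat ENNReal

namespace Pool.Agent.H19.LF

open Pool.Agent.H67.AG Pool.Agent.H28.LF

theorem sel_meas (c : Ux) (Λ n : ℕ) : Measurable (c.sel Λ n) := by
  classical
  have h1 : Measurable (c.wd Λ) := by
    refine measurable_pi_lambda _ fun l => ?_
    exact c.am.comp (c.T.measurable.iterate _)
  have h2 : Measurable fun p : XX c.X (n + 1) =>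
      ((fun b => c.wd Λ (p.2.1 b), c.wd Λ p.2.2) :
        (Fin (n + 1) → Fin Λ → Fin c.q) × (Fin Λ → Fin c.q)) := by
    refine Measurable.prodMk (measurable_pi_lambda _ fun b => ?_) ?_
    · exact h1.comp ((measurable_pi_apply b).comp (measurable_fst.comp measurable_snd))
    · exact h1.comp (measurable_snd.comp measurable_snd)
  obtain ⟨F, hF⟩ : ∃ F : (Fin (n + 1) → Fin Λ → Fin c.q) × (Fin Λ → Fin c.q) → Fin (n + 1),
      ∀ p : XX c.X (n + 1), c.sel Λ n p = F (fun b => c.wd Λ (p.2.1 b), c.wd Λ p.2.2) := by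
    refine ⟨fun w => if h : (univ.filter fun b => w.1 b = w.2).Nonempty then
      (univ.filter fun b => w.1 b = w.2).min' h else 0, fun p => ?_⟩
    rfl
  have h3 : c.sel Λ n = fun p => F (fun b => c.wd Λ (p.2.1 b), c.wd Λ p.2.2) := funext hF
  rw [h3]
  exact (measurable_of_countable F).comp h2

/-- the reference system over `Z` -/
noncomputable def dS (hE : T_EQB) (hPNL : Pool.Agent.H40.AG.T_PNL) (hPNT : Pool.Agent.H40.AG.T_PNT)
    (c : Ux) (K : ℕ) (hK : 0 < K) (m₀ : ℝ) (m0 : 0 < m₀) (m1 : m₀ ≤ 1) (hs : c.Sep m₀)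
    (Z : SA c.X) (n : ℕ) (hZ : InvZ c.T Z) : Sx where
  q := c.q
  n := n + 1
  K := K
  hK := hK
  U := c.U
  hU := c.hU
  s := c.s
  sv := c.sv
  γ := c.γ
  γ0 := c.γ0
  hγ := c.hγ
  m₀ := m₀
  m0 := m0
  m1 := m1
  Bad := c.Bad K (30 * K)
  code := c.code K (30 * K)
  Ω' := XN c.X (n + 1)
  P' := PN c.μ Z (n + 1)
  pP' := (hPNL c.X c.μ Z (n + 1)).1
  T' := TN c.T (n + 1)
  mp' := hPNT c.X c.μ c.T Z (n + 1) c.erg.toMeasurePreserving hZ
  y := fun b q => c.a (q.2 b)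
  ym := fun b => c.am.comp ((measurable_pi_apply b).comp measurable_snd)
  e := fun a b => {q | (q.2 a, q.2 b) ∈ c.Eqv}
  em := by
    intro a b
    have h1 : Measurable fun q : XN c.X (n + 1) => (q.2 a, q.2 b) :=
      ((measurable_pi_apply a).comp measurable_snd).prodMk
        ((measurable_pi_apply b).comp measurable_snd)
    refine ⟨h1 (hE c).1, ?_⟩
    ext q
    have h2 : (c.T (q.2 a), c.T (q.2 b)) ∈ c.Eqv ↔ (q.2 a, q.2 b) ∈ c.Eqv := by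
      have h3 : (q.2 a, q.2 b) ∈ (TT c.T) ⁻¹' c.Eqv ↔ (q.2 a, q.2 b) ∈ c.Eqv := by
        rw [(hE c).2.1]
      exact h3
    exact h2
  erefl := fun a ω => ((hE c).2.2.1 (ω.2 a) (ω.2 a) (ω.2 a)).1
  esymm := fun a b ω h => ((hE c).2.2.1 (ω.2 a) (ω.2 b) (ω.2 b)).2.1 h
  etrans := fun a b b' ω h h' => ((hE c).2.2.1 (ω.2 a) (ω.2 b) (ω.2 b')).2.2 h h'
  ye := fun a b => Filter.Eventually.of_forall fun ω h => (h 0).1
  sep := by
    intro a b A hA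
    have hP := hPNL c.X c.μ Z (n + 1)
    have hp := hP.1
    exact hs (XN c.X (n + 1)) (PN c.μ Z (n + 1)) (TN c.T (n + 1)) (fun q => q.2 a)
      (fun q => q.2 b) A (hPNT c.X c.μ c.T Z (n + 1) c.erg.toMeasurePreserving hZ)
      ⟨hP.2.2.1 a, fun _ => rfl⟩ ⟨hP.2.2.1 b, fun _ => rfl⟩ hA

/-- the extension with the last point -/
noncomputable def eS (hE : T_EQB) (hPNL : Pool.Agent.H40.AG.T_PNL) (hPNT : Pool.Agent.H40.AG.T_PNT)
    (c : Ux) (K : ℕ) (hK : 0 < K) (m₀ : ℝ) (m0 : 0 < m₀) (m1 : m₀ ≤ 1) (hs : c.Sep m₀)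
    (Z : SA c.X) (n : ℕ) (hZ : InvZ c.T Z) (Λ : ℕ) (R : Measure (c.X × c.X))
    (hP : IsProbabilityMeasure (PX c.μ Z (n + 1) R))
    (hT : MeasurePreserving (TX c.T (n + 1)) (PX c.μ Z (n + 1) R) (PX c.μ Z (n + 1) R))
    (hg : MeasurePreserving (prX c.X (n + 1)) (PX c.μ Z (n + 1) R) (PN c.μ Z (n + 1))) :
    SxE (dS hE hPNL hPNT c K hK m₀ m0 m1 hs Z n hZ) where
  Ω := XX c.X (n + 1)
  P := PX c.μ Z (n + 1) R
  pP := hP
  T := TX c.T (n + 1)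
  mp := hT
  g := prX c.X (n + 1)
  fac := ⟨hg, fun _ => rfl⟩
  s := c.sel Λ n
  sm := sel_meas c Λ n

theorem pf_D8 (hX : T_XSW) (hE : T_EQB) (hPNL : Pool.Agent.H40.AG.T_PNL)
    (hPNT : Pool.Agent.H40.AG.T_PNT) (hPXL : Pool.Agent.H40.AG.T_PXL)
    (hPXT : Pool.Agent.H40.AG.T_PXT) : T_D8 := by
  intro c K m₀ ε hK m0 m1 hs hε
  obtain ⟨η, hη, h1⟩ := hX K c.γ m₀ ε hK c.γ0 m0 hε
  refine ⟨η, hη, fun Z n hZ => ?_⟩
  obtain ⟨L₁, h2⟩ := h1 (dS hE hPNL hPNT c K hK m₀ m0 m1 hs Z n hZ) rfl rfl rfl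
  refine ⟨L₁, fun Λ R _ hR1 hR2 hRT hsl => ?_⟩
  have hL := hPXL c.X c.μ Z (n + 1) R hR1 hR2
  have hT := hPXT c.X c.μ c.T Z (n + 1) R c.erg.toMeasurePreserving hZ hR1 hR2 hRT
  have h4 := h2 (eS hE hPNL hPNT c K hK m₀ m0 m1 hs Z n hZ Λ R hL.1 hT hL.2.2.1) hsl
  refine le_trans (le_of_eq ?_) h4
  have h5 : ∀ b : Fin (n + 1), {p : XX c.X (n + 1) |
      (p.2.1 (c.sel Λ n p), p.2.1 b) ∉ c.Eqv}.indicator (fun _ => (1 : ℝ)) =
      (eS hE hPNL hPNT c K hK m₀ m0 m1 hs Z n hZ Λ R hL.1 hT hL.2.2.1).Pb b := by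
    intro b
    funext p
    unfold SxE.Pb
    by_cases h : (p.2.1 (c.sel Λ n p), p.2.1 b) ∈ c.Eqv
    · rw [Set.indicator_of_notMem (show p ∉ {p : XX c.X (n + 1) |
        (p.2.1 (c.sel Λ n p), p.2.1 b) ∉ c.Eqv} from fun h' => h' h)]
      rw [if_pos]
      exact h
    · rw [Set.indicator_of_mem h]
      rw [if_neg]
      exact h
  simp only [h5]
  rfl

end Pool.Agent.H19.LF
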