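import Pool.Agent.H28.LF.T1

set_option autoImplicit false

open MeasureTheory ProbabilityTheory Filter Topology Finset
open scoped Nat ENNReal

namespace Pool.Agent.H19.LF

open Pool.Agent.H67.AG Pool.Agent.H28.LF

theorem fac_iter {Ω Ω' : Type} [MeasurableSpace Ω] [MeasurableSpace Ω'] {P : Measure Ω}
    {T : Ω ≃ᵐ Ω} {P' : Measure Ω'} {T' : Ω' ≃ᵐ Ω'} {g : Ω → Ω'} (h : Fac P T P' T' g) (n : ℕ)
    (ω : Ω) : g (T^[n] ω) = T'^[n] (g ω) := by
  induction n generalizing ω with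
  | zero => rfl
  | succ n ih => rw [Function.iterate_succ_apply, Function.iterate_succ_apply, ih, h.2]

theorem Wd_meas {Ω : Type} [MeasurableSpace Ω] {q : ℕ} (T : Ω ≃ᵐ Ω) (a : Ω → Fin q)
    (ha : Measurable a) (R p : ℕ) : Measurable (Wd T a R p) := by
  refine measurable_pi_lambda _ fun i => ?_
  exact ha.comp (T.measurable.iterate _)

theorem pf_LAF : T_LAF := by
  intro Ω Ω' _ _ P _ P' _ T T' g U s q R Bad a hf ha
  unfold La
  congr 1
  funext m
  congr 1
  funext p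
  congr 1
  have h1 : (Set.univ ∩ {ω | Wd T (fun ω => a (g ω)) R p ω ∈ Bad p} : Set Ω) =
      g ⁻¹' (Set.univ ∩ {ω | Wd T' a R p ω ∈ Bad p}) := by
    ext ω
    have h2 : Wd T (fun ω => a (g ω)) R p ω = Wd T' a R p (g ω) := by
      funext i
      change a (g (T^[p * ((i : ℕ) + 1)] ω)) = a (T'^[p * ((i : ℕ) + 1)] (g ω))
      rw [fac_iter hf]
    simp only [Set.univ_inter, Set.mem_preimage, Set.mem_ofPred_eq, h2]
  rw [h1]
  have h3 : MeasurableSet (Set.univ ∩ {ω | Wd T' a R p ω ∈ Bad p} : Set Ω') := by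
    rw [Set.univ_inter]
    exact (Wd_meas T' a ha R p) (Set.toFinite (Bad p)).measurableSet
  rw [measureReal_def, measureReal_def, hf.1.measure_preimage h3.nullMeasurableSet]

end Pool.Agent.H19.LF
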