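import Pool.Agent.H25.LF.Targets

/-!
# The sharp weight is majorised by smooth weights (MP_04ff0f_nt, row MAJ)
-/

set_option autoImplicit false

open Finset Real ArithmeticFunction

namespace Pool.Agent.H19.LF

open Pool.Agent.H25.LF
open Pool.Agent.H27.LS (hat hat_log_eq_zero_of_ge)
open Pool.Agent.H30.BV (NX wx WX)

theorem maj_NX_mono {X Y : ℝ} (h : X ≤ Y) : NX X ≤ NX Y := Nat.ceil_mono (by linarith)

theorem maj_ext (P : ℕ → Prop) [DecidablePred P] (X : ℝ) (hX : 0 < X) (N : ℕ) (hN : NX X ≤ N) :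
    ∑ n ∈ (Icc 1 (NX X)).filter P, wx X n =
      ∑ n ∈ (Icc 1 N).filter P, Λ n * hat (Real.log (n / X)) := by
  refine Finset.sum_subset (Finset.filter_subset_filter _ (Finset.Icc_subset_Icc_right hN)) ?_
  intro n hn hn'
  rw [Finset.mem_filter, Finset.mem_Icc] at hn hn'
  have h1 : NX X < n := by
    by_contra h
    exact hn' ⟨⟨hn.1.1, not_lt.1 h⟩, hn.2⟩
  have h2 : 3 * X ≤ n := (Nat.le_ceil (3 * X)).trans (by exact_mod_cast h1.le)
  change Λ n * hat (Real.log (n / X)) = 0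
  rw [hat_log_eq_zero_of_ge hX h2, mul_zero]

theorem maj_log (n : ℕ) (hn : 1 ≤ n) (x c : ℝ) (hx : 0 < x) :
    Real.log (n / (x * Real.exp c)) = Real.log (n / x) - c := by
  have hn0 : (0 : ℝ) < n := by exact_mod_cast hn
  rw [← div_div, Real.log_div (by positivity) (Real.exp_pos c).ne', Real.log_exp]

theorem maj_smooth (P : ℕ → Prop) [DecidablePred P] (w : ℝ) (M : ℕ) (x : ℝ) (hw1 : w < 1)
    (hx : 0 < x) (N : ℕ) (hN : NX x ≤ N) :
    (∑ m ∈ Icc 1 M, (m : ℝ) * (∑ n ∈ (Icc 1 (NX (x * Real.exp (w - m)))).filter P,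
        wx (x * Real.exp (w - m)) n -
      ∑ n ∈ (Icc 1 (NX (x * Real.exp (-m)))).filter P, wx (x * Real.exp (-m)) n)) / w =
      ∑ n ∈ (Icc 1 N).filter P, Λ n * PH w M (Real.log (n / x)) := by
  have h1 : ∀ m ∈ Icc 1 M, (m : ℝ) * (∑ n ∈ (Icc 1 (NX (x * Real.exp (w - m)))).filter P,
        wx (x * Real.exp (w - m)) n -
      ∑ n ∈ (Icc 1 (NX (x * Real.exp (-m)))).filter P, wx (x * Real.exp (-m)) n) =
      ∑ n ∈ (Icc 1 N).filter P, Λ n * ((m : ℝ) * (hat (Real.log (n / x) - w + m) -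
        hat (Real.log (n / x) + m))) := by
    intro m hm
    rw [Finset.mem_Icc] at hm
    have hm1 : (1 : ℝ) ≤ m := by exact_mod_cast hm.1
    have a1 : x * Real.exp (w - m) ≤ x := by
      have : Real.exp (w - m) ≤ 1 := Real.exp_le_one_iff.2 (by linarith)
      nlinarith
    have a2 : x * Real.exp (-m) ≤ x := by
      have : Real.exp (-(m : ℝ)) ≤ 1 := Real.exp_le_one_iff.2 (by linarith)
      nlinarith
    rw [maj_ext P _ (by positivity) N ((maj_NX_mono a1).trans hN),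
      maj_ext P _ (by positivity) N ((maj_NX_mono a2).trans hN), ← Finset.sum_sub_distrib,
      Finset.mul_sum]
    refine Finset.sum_congr rfl fun n hn => ?_
    have hn1 : 1 ≤ n := (Finset.mem_Icc.1 (Finset.mem_filter.1 hn).1).1
    rw [maj_log n hn1 x _ hx, maj_log n hn1 x _ hx]
    have e1 : Real.log (n / x) - (w - m) = Real.log (n / x) - w + m := by ring
    have e2 : Real.log (n / x) - -(m : ℝ) = Real.log (n / x) + m := by ring
    rw [e1, e2]
    ring
  rw [Finset.sum_congr rfl h1, Finset.sum_comm, Finset.sum_div]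
  refine Finset.sum_congr rfl fun n _ => ?_
  unfold PH
  rw [← Finset.mul_sum, mul_div_assoc]

theorem maj_sharp (P : ℕ → Prop) [DecidablePred P] (x c : ℝ) (hx : 0 < x) (N : ℕ)
    (hN : ⌊x * Real.exp c⌋₊ ≤ N) :
    ∑ n ∈ (Icc 1 ⌊x * Real.exp c⌋₊).filter P, Λ n =
      ∑ n ∈ (Icc 1 N).filter P, Λ n * (if Real.log (n / x) ≤ c then (1 : ℝ) else 0) := by
  have h1 : ∀ n ∈ (Icc 1 N).filter P, (Real.log (n / x) ≤ c ↔ n ≤ ⌊x * Real.exp c⌋₊) := by
    intro n hn
    have hn1 : 1 ≤ n := (Finset.mem_Icc.1 (Finset.mem_filter.1 hn).1).1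
    have hn0 : (0 : ℝ) < n := by exact_mod_cast hn1
    rw [Real.log_le_iff_le_exp (by positivity), div_le_iff₀ hx,
      Nat.le_floor_iff (by positivity), mul_comm]
  have h2 : ∑ n ∈ (Icc 1 N).filter P, Λ n * (if Real.log (n / x) ≤ c then (1 : ℝ) else 0) =
      ∑ n ∈ (Icc 1 N).filter P, if n ≤ ⌊x * Real.exp c⌋₊ then Λ n else 0 := by
    refine Finset.sum_congr rfl fun n hn => ?_
    by_cases h : n ≤ ⌊x * Real.exp c⌋₊
    · rw [if_pos h, if_pos ((h1 n hn).2 h), mul_one]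
    · rw [if_neg h, if_neg (fun h' => h ((h1 n hn).1 h')), mul_zero]
  rw [h2, ← Finset.sum_filter]
  refine Finset.sum_congr ?_ fun _ _ => rfl
  ext n
  simp only [Finset.mem_filter, Finset.mem_Icc]
  constructor
  · rintro ⟨⟨a1, a2⟩, a3⟩
    exact ⟨⟨⟨a1, a2.trans hN⟩, a3⟩, a2⟩
  · rintro ⟨⟨⟨a1, _⟩, a3⟩, a2⟩
    exact ⟨⟨a1, a2⟩, a3⟩

theorem pf_MAJ (hTRZ : T_TRZ) : T_MAJ := by
  intro w M x hw0 hw1 hM hx
  have he : 1 ≤ Real.exp 1 := by
    have := Real.add_one_le_exp (1 : ℝ)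
    linarith
  set N : ℕ := NX (x * Real.exp 1) with hN
  have hxN : NX x ≤ N := maj_NX_mono (by nlinarith)
  have hflN : ∀ c : ℝ, c ≤ 1 → ⌊x * Real.exp c⌋₊ ≤ N := by
    intro c hc
    have h1 : x * Real.exp c ≤ x * Real.exp 1 :=
      mul_le_mul_of_nonneg_left (Real.exp_le_exp.2 hc) hx.le
    have h2 : x * Real.exp c ≤ 3 * (x * Real.exp 1) := by
      have : 0 ≤ x * Real.exp 1 := by positivity
      linarith
    exact (Nat.floor_le_floor h2).trans (Nat.floor_le_ceil _)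
  constructor
  · intro d
    have e0 : LL x d = ∑ n ∈ (Icc 1 N).filter (Dv d),
        Λ n * (if Real.log (n / x) ≤ 0 then (1 : ℝ) else 0) := by
      have h := maj_sharp (Dv d) x 0 hx N (hflN 0 (by norm_num))
      rw [Real.exp_zero, mul_one] at h
      exact h
    have e1 : LL (x * Real.exp (1 - M)) d = ∑ n ∈ (Icc 1 N).filter (Dv d),
        Λ n * (if Real.log (n / x) ≤ 1 - M then (1 : ℝ) else 0) := by
      have hM0 : (0 : ℝ) ≤ M := Nat.cast_nonneg M
      exact maj_sharp (Dv d) x (1 - M) hx N (hflN _ (by linarith))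
    have e2 := maj_smooth (Dv d) w M x hw1 hx N hxN
    change (∑ m ∈ Icc 1 M, (m : ℝ) * (WD (x * Real.exp (w - m)) d -
      WD (x * Real.exp (-m)) d)) / w = _ at e2
    rw [e2, e0, e1, Finset.mul_sum, ← Finset.sum_add_distrib]
    refine Finset.sum_le_sum fun n _ => ?_
    have h1 := (hTRZ w M (Real.log (n / x)) hw0 hw1 hM).1
    have h2 := mul_le_mul_of_nonneg_left h1
      (ArithmeticFunction.vonMangoldt_nonneg (n := n))
    refine h2.trans (le_of_eq ?_)
    ring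
  · have e2 := maj_smooth (fun _ => True) w M x hw1 hx N hxN
    simp only [Finset.filter_true] at e2
    change (∑ m ∈ Icc 1 M, (m : ℝ) * (WX (x * Real.exp (w - m)) -
      WX (x * Real.exp (-m)))) / w = _ at e2
    have e3 := maj_sharp (fun _ => True) x w hx N (hflN w hw1.le)
    simp only [Finset.filter_true] at e3
    have e4 : Chebyshev.psi (x * Real.exp w) = ∑ n ∈ Icc 1 ⌊x * Real.exp w⌋₊, Λ n := by
      unfold Chebyshev.psi
      refine Finset.sum_congr ?_ fun _ _ => rfl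
      ext n
      simp only [Finset.mem_Ioc, Finset.mem_Icc]
      omega
    rw [e2, e4, e3]
    refine Finset.sum_le_sum fun n _ => ?_
    have h1 := (hTRZ w M (Real.log (n / x)) hw0 hw1 hM).2
    exact mul_le_mul_of_nonneg_left h1 ArithmeticFunction.vonMangoldt_nonneg

end Pool.Agent.H19.LF
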