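import Pool.Agent.H25.LF.Targets
import Pool.Agent.H33.PF.M8
import Pool.Agent.H20.BV.ML

/-!
# Mertens' theorem for the square roots of two (MP_04ff0f_nt, row MER)
-/

set_option autoImplicit false

open Finset Real ArithmeticFunction
open scoped ArithmeticFunction.vonMangoldt

namespace Pool.Agent.H19.LF

open Pool.Agent.H25.LF
open Pool.Agent.H30.PF (S8)
open Pool.Agent.H30.BV (gg)
open Pool.Agent.H30.PF.M8 (cx ap ap_bound)

theorem mer_set (y z : ℝ) (hy : 1 ≤ y) :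
    (PR z).filter (fun l : ℕ => y < (l : ℝ)) = (Ioc ⌊y⌋₊ ⌊z⌋₊).filter Nat.Prime := by
  ext l
  unfold PR
  simp only [Finset.mem_filter, Finset.mem_Icc, Finset.mem_Ioc]
  rw [Nat.floor_lt (by linarith)]
  constructor
  · rintro ⟨⟨⟨_, h2⟩, h3⟩, h4⟩
    exact ⟨⟨h4, h2⟩, h3⟩
  · rintro ⟨⟨h4, h2⟩, h3⟩
    exact ⟨⟨⟨h3.one_le, h2⟩, h3⟩, h4⟩

theorem mer_term (l : ℕ) (hl : l.Prime) :
    Real.log l * gg l ≤ Real.log l / l + cx l * (Real.log l / l) + 4 * (Real.log l / (l : ℝ) ^ 2) := by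
  have h2 : (2 : ℝ) ≤ l := by exact_mod_cast hl.two_le
  have h0 : (0 : ℝ) < l := by linarith
  have h1 : 0 < (l : ℝ) - 1 := by linarith
  have hlog : 0 ≤ Real.log l := Real.log_nonneg (by linarith)
  have hq : 0 ≤ Real.log l / (l : ℝ) ^ 2 := by positivity
  have hq1 : 0 ≤ Real.log l / (l : ℝ) := by positivity
  by_cases h8 : S8 l
  · have hcx : cx l = 1 := by
      unfold cx
      have h8' : l % 8 = 1 ∨ l % 8 = 7 := h8
      have hodd : ¬ l % 2 = 0 := by omega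
      rw [if_neg hodd, if_pos h8']
    have hgg : gg l = 2 / ((l : ℝ) - 1) := by
      unfold gg
      rw [if_pos h8]
    rw [hcx, hgg]
    have e1 : (1 : ℝ) / ((l : ℝ) - 1) ≤ 1 / l + 2 / (l : ℝ) ^ 2 := by
      rw [div_add_div _ _ h0.ne' (by positivity), div_le_div_iff₀ h1 (by positivity)]
      nlinarith
    have e2 : Real.log l * (2 / ((l : ℝ) - 1)) = 2 * Real.log l * (1 / ((l : ℝ) - 1)) := by ring
    rw [e2]
    calc 2 * Real.log l * (1 / ((l : ℝ) - 1)) ≤ 2 * Real.log l * (1 / l + 2 / (l : ℝ) ^ 2) :=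
          mul_le_mul_of_nonneg_left e1 (by positivity)
      _ = _ := by ring
  · have hgg : gg l = 0 := by
      unfold gg
      rw [if_neg h8]
    rw [hgg, mul_zero]
    have hcx : -1 ≤ cx l := (abs_le.1 (Pool.Agent.H30.PF.M8.cx_abs l)).1
    have : 0 ≤ Real.log l / l + cx l * (Real.log l / l) := by
      have := mul_le_mul_of_nonneg_right hcx hq1
      linarith
    linarith

theorem mer_sq : ∃ C : ℝ, 0 ≤ C ∧ ∀ s : Finset ℕ, (∀ l ∈ s, l.Prime) →
    ∑ l ∈ s, Real.log l / (l : ℝ) ^ 2 ≤ C := by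
  obtain ⟨C, hC, h⟩ := Pool.Agent.H20.BV.nonprime_bound'
  refine ⟨C, hC, fun s hs => ?_⟩
  have h1 := h (s.image (fun l => l ^ 2))
  refine le_trans (le_of_eq ?_) h1
  have h2 : (s.image (fun l => l ^ 2)).filter (fun n => ¬ n.Prime) = s.image (fun l => l ^ 2) := by
    apply Finset.filter_true_of_mem
    intro n hn
    obtain ⟨l, _, rfl⟩ := Finset.mem_image.1 hn
    exact Nat.Prime.not_prime_pow le_rfl
  rw [h2, Finset.sum_image]
  · apply Finset.sum_congr rfl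
    intro l hl
    rw [ArithmeticFunction.vonMangoldt_apply_pow two_ne_zero,
      ArithmeticFunction.vonMangoldt_apply_prime (hs l hl)]
    push_cast
    rfl
  · intro a _ b _ hab
    exact Nat.pow_left_injective (n := 2) two_ne_zero hab

theorem pf_MER : T_MER := by
  obtain ⟨B, hB, hap⟩ := ap_bound
  obtain ⟨C, hC, hsq⟩ := mer_sq
  refine ⟨8 + 2 * B + 4 * C, by linarith, ?_⟩
  intro y z hy hyz
  unfold SL
  rw [mer_set y z hy]
  have hfl : ⌊y⌋₊ ≤ ⌊z⌋₊ := Nat.floor_le_floor hyz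
  have h1 : ∑ l ∈ (Ioc ⌊y⌋₊ ⌊z⌋₊).filter Nat.Prime, Real.log l / l ≤ Real.log z - Real.log y + 8 := by
    have h1 := Pool.Agent.H22.MR.mertens_diff (u := y) (x := z) hy hyz
    refine le_trans ?_ h1
    rw [Finset.sum_filter]
    refine Finset.sum_le_sum fun q _ => ?_
    by_cases hq : q.Prime
    · rw [if_pos hq, ArithmeticFunction.vonMangoldt_apply_prime hq]
    · rw [if_neg hq]
      exact div_nonneg ArithmeticFunction.vonMangoldt_nonneg (Nat.cast_nonneg _)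
  have h2 : ∑ l ∈ (Ioc ⌊y⌋₊ ⌊z⌋₊).filter Nat.Prime, cx l * (Real.log l / l) ≤ 2 * B := by
    have e1 : ∑ l ∈ (Ioc ⌊y⌋₊ ⌊z⌋₊).filter Nat.Prime, cx l * (Real.log l / l) =
        ∑ l ∈ range (⌊z⌋₊ + 1), ap l - ∑ l ∈ range (⌊y⌋₊ + 1), ap l := by
      rw [← Finset.sum_Ico_eq_sub _ (by omega), Finset.sum_filter]
      have : Ioc ⌊y⌋₊ ⌊z⌋₊ = Ico (⌊y⌋₊ + 1) (⌊z⌋₊ + 1) := by
        ext x
        simp only [Finset.mem_Ioc, Finset.mem_Ico]
        omega
      rw [this]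
      rfl
    rw [e1]
    have a1 := (abs_le.1 (hap (⌊z⌋₊ + 1))).2
    have a2 := (abs_le.1 (hap (⌊y⌋₊ + 1))).1
    linarith
  have h3 := hsq ((Ioc ⌊y⌋₊ ⌊z⌋₊).filter Nat.Prime) (fun l hl => (Finset.mem_filter.1 hl).2)
  have h4 : ∑ l ∈ (Ioc ⌊y⌋₊ ⌊z⌋₊).filter Nat.Prime, Real.log l * gg l ≤
      ∑ l ∈ (Ioc ⌊y⌋₊ ⌊z⌋₊).filter Nat.Prime, (Real.log l / l + cx l * (Real.log l / l) +
        4 * (Real.log l / (l : ℝ) ^ 2)) :=
    Finset.sum_le_sum fun l hl => mer_term l (Finset.mem_filter.1 hl).2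
  rw [Finset.sum_add_distrib, Finset.sum_add_distrib, ← Finset.mul_sum] at h4
  rw [Real.log_div (by linarith) (by linarith)]
  linarith

end Pool.Agent.H19.LF
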